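import Pool.Agent.UL7.Stmts

/-!
# Row ZVX of squad UL7 (MP_c7c9bf_co)
-/

set_option autoImplicit false

namespace Pool.Agent.UL7.H45

open MeasureTheory Set Pool.Agent.UL3 Pool.Agent.UL4 Pool.Agent.UL5
open Pool.Agent.UL7

theorem zon_append (l l' : List (ℝ × ℝ)) : ∀ X : Set (ℝ × ℝ), zon X (l ++ l') = zon (zon X l) l' := by
  induction l with
  | nil => intro X; rfl
  | cons v l ih =>
    intro X
    rw [List.cons_append]
    show zon (sgm X v) (l ++ l') = zon (zon (sgm X v) l) l'
    exact ih (sgm X v)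

theorem mem_zon (e : ℕ → ℝ × ℝ) (s : ℕ → ℝ) (hs : ∀ j, |s j| ≤ 1) (m : ℕ) :
    ∑ j ∈ Finset.range m, s j • e j ∈ zon {0} ((List.range m).map e) := by
  induction m with
  | zero => exact rfl
  | succ m ih =>
    rw [List.range_succ, List.map_append, zon_append, Finset.sum_range_succ]
    show _ ∈ sgm (zon {0} ((List.range m).map e)) (e m)
    exact ⟨_, ih, s m, hs m, rfl⟩

theorem tel (Q : ℕ → ℝ × ℝ) (k m : ℕ) :
    ∑ j ∈ Finset.range m, (if j < k then (1 : ℝ) else -1) • ((1 / 2 : ℝ) • (Q (j + 1) - Q j)) =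
      if m ≤ k then (1 / 2 : ℝ) • (Q m - Q 0)
      else (1 / 2 : ℝ) • (Q k - Q 0) - (1 / 2 : ℝ) • (Q m - Q k) := by
  induction m with
  | zero => simp
  | succ m ih =>
    rw [Finset.sum_range_succ, ih]
    rcases lt_trichotomy m k with h | h | h
    · rw [if_pos h.le, if_pos h, if_pos (by omega : m + 1 ≤ k), one_smul, ← smul_add]
      congr 1
      abel
    · subst h
      rw [if_pos le_rfl, if_neg (lt_irrefl _), if_neg (by omega : ¬ m + 1 ≤ m), neg_one_smul]
      module
    · rw [if_neg (by omega : ¬ m ≤ k), if_neg (by omega : ¬ m < k),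
        if_neg (by omega : ¬ m + 1 ≤ k), neg_one_smul]
      module

theorem range_cast (N : ℕ) (f : ℝ → ℝ × ℝ) :
    List.map f (do let a ← List.range N; pure ((a : ℕ) : ℝ)) =
      (List.range N).map (fun j : ℕ => f (j : ℝ)) := by
  rw [List.bind_eq_flatMap]
  induction List.range N with
  | nil => rfl
  | cons a l ih =>
    rw [List.flatMap_cons, List.map_append, ih]
    rfl

theorem zvx (_h1 : ZliStmt) : ZvxStmt := by
  intro P hP N k hN hk
  have hNr : (N : ℝ) ≠ 0 := by exact_mod_cast hN.ne'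
  have hPN : P (Real.pi * (N : ℝ) / N) = - P (Real.pi * ((0 : ℕ) : ℝ) / N) := by
    rw [mul_div_assoc, div_self hNr, mul_one, Nat.cast_zero, mul_zero, zero_div, ← hP 0, zero_add]
  have h := mem_zon (fun j : ℕ => (1 / 2 : ℝ) • (P (Real.pi * ((j : ℝ) + 1) / N) -
    P (Real.pi * (j : ℝ) / N))) (fun j => if j < k then 1 else -1)
    (fun j => by split_ifs <;> simp) N
  have ht := tel (fun j : ℕ => P (Real.pi * (j : ℝ) / N)) k N
  have e : ∑ j ∈ Finset.range N, (fun j => if j < k then (1 : ℝ) else -1) j •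
      (fun j : ℕ => (1 / 2 : ℝ) • (P (Real.pi * ((j : ℝ) + 1) / N) -
        P (Real.pi * (j : ℝ) / N))) j = P (Real.pi * (k : ℝ) / N) := by
    have e1 : ∑ j ∈ Finset.range N, (fun j => if j < k then (1 : ℝ) else -1) j •
      (fun j : ℕ => (1 / 2 : ℝ) • (P (Real.pi * ((j : ℝ) + 1) / N) -
        P (Real.pi * (j : ℝ) / N))) j =
        ∑ j ∈ Finset.range N, (if j < k then (1 : ℝ) else -1) •
          ((1 / 2 : ℝ) • (P (Real.pi * ((j + 1 : ℕ) : ℝ) / N) - P (Real.pi * (j : ℝ) / N))) := by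
      refine Finset.sum_congr rfl (fun j _ => ?_)
      rw [Nat.cast_add, Nat.cast_one]
    rw [e1]
    refine ht.trans ?_
    by_cases hkN : N ≤ k
    · have hkN' : k = N := le_antisymm hk hkN
      subst hkN'
      rw [if_pos le_rfl]
      rw [hPN]
      module
    · rw [if_neg hkN]
      rw [hPN]
      module
  rw [e] at h
  unfold edg
  rw [range_cast]
  exact h

end Pool.Agent.UL7.H45
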